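import Pool.Agent.H2.EK.Targets

/-!
# Super-exterior powers modulo numerical equivalence (MP_fd35e1_ag), row GCA: the contraction of
the first two places
-/

set_option autoImplicit false

open Matrix Pool.Agent.H2.NL Pool.Agent.H64.CC Pool.Agent.H2.KM Pool.Agent.H64.EV Pool.Agent.H2.EK

namespace Pool.Agent.H26.EK

section

variable {K : Type} [Field K] {I : Type} {o : I → Bool}

private theorem ga_sum {ι : Type} (S : Finset ι) (c : ι → K) : ∀ (s : List Bool)
    (f : ι → List I → List I → K) (w : List I),
    ∑ a ∈ S, c a * Ga o s (f a) w = Ga o s (fun u v => ∑ a ∈ S, c a * f a u v) w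
  | [], f, [] => rfl
  | [], f, a :: w => Finset.sum_eq_zero fun a _ => mul_zero (c a)
  | true :: s, f, [] => Finset.sum_eq_zero fun a _ => mul_zero (c a)
  | false :: s, f, [] => Finset.sum_eq_zero fun a _ => mul_zero (c a)
  | true :: s, f, b :: w => ga_sum S c s (fun a u v => f a (b :: u) v) w
  | false :: s, f, b :: w => by
    have h := ga_sum S c s (fun a u v => sga K o b u * f a u (b :: v)) w
    change ∑ a ∈ S, c a * Ga o s (fun u v => sga K o b u * f a u (b :: v)) w =
      Ga o s (fun u v => sga K o b u * ∑ a ∈ S, c a * f a u (b :: v)) w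
    rw [h]
    congr 1
    funext u v
    rw [Finset.mul_sum]
    exact Finset.sum_congr rfl fun a _ => by ring

private theorem sga_st [Fintype I] [DecidableEq I] (F : OForm K I) (a : I) (u : List I) :
    sga K F.o (F.st a) u = sga K F.o a u := by
  unfold sga
  rw [F.o_st]

end

theorem pf_GCA : T_GCA := by
  intro K _ I _ _ F x s w
  have e0 : ∀ h h' : Bool, con F.η 0 (Ga F.o (h :: h' :: s) x) w =
      ∑ a, F.c a * Ga F.o (h :: h' :: s) x (a :: F.st a :: w) := by
    intro h h'
    change ∑ a, ∑ b, F.η a b * Ga F.o (h :: h' :: s) x (a :: b :: w) = _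
    refine Finset.sum_congr rfl fun a _ => ?_
    rw [Finset.sum_eq_single (F.st a)]
    · change (if F.st a = F.st a then F.c a else 0) * _ = _
      rw [if_pos rfl]
    · intro b _ hb
      change (if b = F.st a then F.c a else 0) * _ = _
      rw [if_neg hb, zero_mul]
    · intro hn
      exact (hn (Finset.mem_univ _)).elim
  constructor
  · rw [e0]
    change ∑ a, F.c a * Ga F.o s (fun u v => sga K F.o (F.st a) u *
        x (a :: u) (F.st a :: v)) w = Ga F.o s (opK F x) w
    rw [ga_sum]
    congr 1
    funext u v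
    refine Finset.sum_congr rfl fun a _ => ?_
    rw [sga_st, mul_assoc]
  · rw [e0]
    change ∑ a, F.c a * Ga F.o s (fun u v => sga K F.o a (F.st a :: u) *
        x (F.st a :: u) (a :: v)) w = -Ga F.o s (opK F x) w
    have hneg : -Ga F.o s (opK F x) w = ∑ a ∈ ({()} : Finset Unit), (-1 : K) *
        Ga F.o s ((fun _ => opK F x) a) w := by
      simp
    rw [hneg, ga_sum, ga_sum]
    congr 1
    funext u v
    have hinv : Function.Involutive F.st := F.st_st
    rw [Finset.sum_singleton, neg_one_mul]
    change ∑ a, F.c a * (sga K F.o a (F.st a :: u) * x (F.st a :: u) (a :: v)) =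
      -∑ a, F.c a * sga K F.o a u * x (a :: u) (F.st a :: v)
    rw [← Finset.sum_neg_distrib]
    refine Fintype.sum_equiv hinv.toPerm _ _ fun a => ?_
    change F.c a * (sga K F.o a (F.st a :: u) * x (F.st a :: u) (a :: v)) =
      -(F.c (F.st a) * sga K F.o (F.st a) u * x (F.st a :: u) (F.st (F.st a) :: v))
    rw [F.st_st, F.c_st, sga_st, sga_cons, F.o_st, ka_self]
    ring

end Pool.Agent.H26.EK
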