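import Pool.Agent.H2.EK.Targets

/-!
# Super-exterior powers modulo numerical equivalence (MP_fd35e1_ag), row GSA: an exchange changes
the pattern
-/

set_option autoImplicit false

open Matrix Pool.Agent.H2.NL Pool.Agent.H64.CC Pool.Agent.H2.KM Pool.Agent.H64.EV Pool.Agent.H2.EK

namespace Pool.Agent.H26.EK

section

variable {K : Type} [Field K] {I : Type} {o : I → Bool}

private theorem ga_smul (c : K) : ∀ (s : List Bool) (x : List I → List I → K) (w : List I),
    c * Ga o s x w = Ga o s (fun u v => c * x u v) w
  | [], x, [] => rfl
  | [], x, a :: w => mul_zero c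
  | true :: s, x, [] => mul_zero c
  | false :: s, x, [] => mul_zero c
  | true :: s, x, a :: w => ga_smul c s (fun u v => x (a :: u) v) w
  | false :: s, x, a :: w => by
    have h := ga_smul c s (fun u v => sga K o a u * x u (a :: v)) w
    change c * Ga o s (fun u v => sga K o a u * x u (a :: v)) w =
      Ga o s (fun u v => sga K o a u * (c * x u (a :: v))) w
    rw [h]
    congr 1
    funext u v
    ring

private theorem ga_nil (h : Bool) (s : List Bool) (x : List I → List I → K) :
    Ga o (h :: s) x [] = 0 := by
  cases h <;> rfl

private theorem ga_one (h h' : Bool) (s : List Bool) (x : List I → List I → K) (a : I) :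
    Ga o (h :: h' :: s) x [a] = 0 := by
  cases h
  · exact ga_nil h' s _
  · exact ga_nil h' s _

private theorem ga_true {x : List I → List I → K} (hx : GA o x) (a : I) :
    GA o fun u v => x (a :: u) v where
  up j u v h := hx.up (j + 1) (a :: u) v (by simpa using h)
  lo j u v h := hx.lo j (a :: u) v h

private theorem ga_false {x : List I → List I → K} (hx : GA o x) (a : I) :
    GA o fun u v => sga K o a u * x u (a :: v) where
  up j u v hj := by
    have h := hx.up j u (a :: v) hj
    rw [sw_eq] at h ⊢
    rw [sga_perm o a (ex_perm j u), mul_left_comm, h, mul_neg]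
  lo j u v hj := by
    have h := hx.lo (j + 1) u (a :: v) (by simpa using hj)
    change sw o j (fun v => x u (a :: v)) v = -x u (a :: v) at h
    rw [sw_eq] at h ⊢
    rw [mul_left_comm, h, mul_neg]

private theorem step0 {x : List I → List I → K} (hx : GA o x) (h h' : Bool) (s : List Bool)
    (w : List I) : sw o 0 (Ga o (h :: h' :: s) x) w = -Ga o (ex 0 (h :: h' :: s)) x w := by
  rcases w with - | ⟨a, - | ⟨b, l⟩⟩
  · change Ga o (h :: h' :: s) x [] = -Ga o (h' :: h :: s) x []
    rw [ga_nil, ga_nil, neg_zero]
  · change Ga o (h :: h' :: s) x [a] = -Ga o (h' :: h :: s) x [a]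
    rw [ga_one, ga_one, neg_zero]
  · change ks K (o a) (o b) * Ga o (h :: h' :: s) x (b :: a :: l) =
      -Ga o (h' :: h :: s) x (a :: b :: l)
    rw [ga_smul, ← neg_one_mul (Ga o (h' :: h :: s) x (a :: b :: l)), ga_smul]
    cases h <;> cases h'
    · change Ga o s (fun u v => sga K o a u * (sga K o b u *
          (ks K (o a) (o b) * x u (b :: a :: v)))) l =
        Ga o s (fun u v => sga K o b u * (sga K o a u * (-1 * x u (a :: b :: v)))) l
      congr 1
      funext u v
      have e : ks K (o a) (o b) * x u (b :: a :: v) = -x u (a :: b :: v) :=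
        hx.lo 0 u (a :: b :: v) (by simp)
      rw [e]
      ring
    · change Ga o s (fun u v => sga K o b (a :: u) *
          (ks K (o a) (o b) * x (a :: u) (b :: v))) l =
        Ga o s (fun u v => sga K o b u * (-1 * x (a :: u) (b :: v))) l
      congr 1
      funext u v
      have e := ks_mul_ka (K := K) (o a) (o b)
      rw [sga_cons, ka_comm (o b) (o a)]
      linear_combination (sga K o b u * x (a :: u) (b :: v)) * e
    · change Ga o s (fun u v => sga K o a u * (ks K (o a) (o b) * x (b :: u) (a :: v))) l =
        Ga o s (fun u v => sga K o a (b :: u) * (-1 * x (b :: u) (a :: v))) l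
      congr 1
      funext u v
      rw [sga_cons]
      unfold ka
      ring
    · change Ga o s (fun u v => ks K (o a) (o b) * x (b :: a :: u) v) l =
        Ga o s (fun u v => -1 * x (a :: b :: u) v) l
      congr 1
      funext u v
      rw [neg_one_mul]
      exact hx.up 0 (a :: b :: u) v (by simp)

end

theorem pf_GSA : T_GSA := by
  intro K _ I o x hx s j
  induction j generalizing x s with
  | zero =>
    intro hj w
    rcases s with - | ⟨h, - | ⟨h', s⟩⟩
    · simp at hj
    · simp at hj
    · exact step0 hx h h' s w
  | succ j ih =>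
    intro hj w
    rcases s with - | ⟨h, s⟩
    · simp at hj
    · have hj' : j + 2 ≤ s.length := by simpa using hj
      rcases w with - | ⟨a, l⟩
      · change Ga o (h :: s) x [] = -Ga o (h :: ex j s) x []
        rw [ga_nil, ga_nil, neg_zero]
      · cases h
        · exact ih _ (ga_false hx a) s hj' l
        · exact ih _ (ga_true hx a) s hj' l

end Pool.Agent.H26.EK
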